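import Pool.Agent.helper3.XT.Spec

/-!
# Row MBA: the members of the family are bipartite and not acyclic
-/

set_option autoImplicit false

namespace Pool.Agent.XT

open Finset SimpleGraph

theorem MBA_cyc (n : ℕ) (hn : Even (n + 3)) :
    (cycleGraph (n + 3)).IsBipartite ∧ ¬ (cycleGraph (n + 3)).IsAcyclic := by
  constructor
  · have h := (cycleGraph.bicoloring_of_even (n + 3) hn).colorable
    rwa [Fintype.card_bool] at h
  · intro h
    exact h (cycleGraph.cycle n) (cycleGraph.isCycle_cycle)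

theorem MBA_bip : (GL.Gr RM).IsBipartite := by
  have h := (SimpleGraph.Coloring.mk (G := GL.Gr RM) (fun v => v.isLeft) (by
    intro v w hvw
    unfold GL.Gr at hvw
    rw [SimpleGraph.fromRel_adj] at hvw
    rcases hvw.2 with ⟨x, y, rfl, rfl, _⟩ | ⟨x, y, rfl, rfl, _⟩ <;> simp)).colorable
  rwa [Fintype.card_bool] at h

theorem MBA_adj {a : XM} {b : YM} (h : RM a b) : (GL.Gr RM).Adj (Sum.inl a) (Sum.inr b) := by
  unfold GL.Gr
  rw [SimpleGraph.fromRel_adj]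
  exact ⟨Sum.inl_ne_inr, Or.inl ⟨a, b, rfl, rfl, h⟩⟩

theorem MBA_u (g : GI) (p : P8) :
    (GL.Gr RM).Adj (Sum.inl (uM g p.1.1)) (Sum.inr (Sum.inr (g, p))) :=
  MBA_adj (Or.inr ⟨g, p, rfl, Or.inl rfl⟩)

theorem MBA_w (g : GI) (p : P8) :
    (GL.Gr RM).Adj (Sum.inl (wM g p.1.2)) (Sum.inr (Sum.inr (g, p))) :=
  MBA_adj (Or.inr ⟨g, p, rfl, Or.inr rfl⟩)

/-- the walk from `u_0` to `u_1` through `w_j` -/
def MBA_walk (j : Fin 3) (h0 : ((0, j) : Fin 3 × Fin 3) ≠ (2, 2))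
    (h1 : ((1, j) : Fin 3 × Fin 3) ≠ (2, 2)) :
    (GL.Gr RM).Walk (Sum.inl (uM (false, 0, 0, false) 0)) (Sum.inl (uM (false, 0, 0, false) 1)) :=
  Walk.cons (MBA_u (false, 0, 0, false) ⟨(0, j), h0⟩)
    (Walk.cons (MBA_w (false, 0, 0, false) ⟨(0, j), h0⟩).symm
      (Walk.cons (MBA_w (false, 0, 0, false) ⟨(1, j), h1⟩)
        (Walk.cons (MBA_u (false, 0, 0, false) ⟨(1, j), h1⟩).symm Walk.nil)))

theorem MBA_path0 : (MBA_walk 0 (by decide) (by decide)).IsPath := by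
  rw [Walk.isPath_def]
  simp [MBA_walk, uM, wM]

theorem MBA_path1 : (MBA_walk 1 (by decide) (by decide)).IsPath := by
  rw [Walk.isPath_def]
  simp [MBA_walk, uM, wM]

theorem MBA_nac : ¬ (GL.Gr RM).IsAcyclic := by
  intro h
  have h1 := h.path_unique ⟨_, MBA_path0⟩ ⟨_, MBA_path1⟩
  have h2 := congrArg (fun p => p.1.support) h1
  simp [MBA_walk, uM, wM] at h2

theorem MBA : MBA_stmt := by
  intro i
  match i with
  | 0 => exact MBA_cyc 1 (by decide)
  | 1 => exact MBA_cyc 3 (by decide)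
  | 2 => exact ⟨MBA_bip, MBA_nac⟩

end Pool.Agent.XT
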