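import Pool.Agent.helper3.XT.Spec

/-!
# Row MCN: the graph `M` is connected
-/

set_option autoImplicit false

namespace Pool.Agent.XT

open Finset SimpleGraph

theorem MCN_adj {a : XM} {b : YM} (h : RM a b) : (GL.Gr RM).Reachable (Sum.inl a) (Sum.inr b) := by
  apply SimpleGraph.Adj.reachable
  unfold GL.Gr
  rw [SimpleGraph.fromRel_adj]
  exact ⟨Sum.inl_ne_inr, Or.inl ⟨a, b, rfl, rfl, h⟩⟩

theorem MCN_u (g : GI) (p : P8) :
    (GL.Gr RM).Reachable (Sum.inl (uM g p.1.1)) (Sum.inr (Sum.inr (g, p))) :=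
  MCN_adj (Or.inr ⟨g, p, rfl, Or.inl rfl⟩)

theorem MCN_w (g : GI) (p : P8) :
    (GL.Gr RM).Reachable (Sum.inl (wM g p.1.2)) (Sum.inr (Sum.inr (g, p))) :=
  MCN_adj (Or.inr ⟨g, p, rfl, Or.inr rfl⟩)

theorem MCN_uw (g : GI) (i j : Fin 3) (h : (i, j) ≠ ((2, 2) : Fin 3 × Fin 3)) :
    (GL.Gr RM).Reachable (Sum.inl (uM g i)) (Sum.inl (wM g j)) :=
  (MCN_u g ⟨(i, j), h⟩).trans (MCN_w g ⟨(i, j), h⟩).symm

theorem MCN_u0 (g : GI) : (GL.Gr RM).Reachable (Sum.inl (uM g 0)) (Sum.inl (wM g 2)) :=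
  MCN_uw g 0 2 (by decide)

theorem MCN_ux (g : GI) (i : Fin 3) :
    (GL.Gr RM).Reachable (Sum.inl (uM g i)) (Sum.inl (wM g 2)) := by
  have h0 : (GL.Gr RM).Reachable (Sum.inl (wM g 0)) (Sum.inl (wM g 2)) :=
    (MCN_uw g 0 0 (by decide)).symm.trans (MCN_u0 g)
  fin_cases i
  · exact MCN_u0 g
  · exact MCN_uw g 1 2 (by decide)
  · exact (MCN_uw g 2 0 (by decide)).trans h0

theorem MCN_wx (g : GI) (j : Fin 3) :
    (GL.Gr RM).Reachable (Sum.inl (wM g j)) (Sum.inl (wM g 2)) := by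
  fin_cases j
  · exact (MCN_uw g 0 0 (by decide)).symm.trans (MCN_u0 g)
  · exact (MCN_uw g 0 1 (by decide)).symm.trans (MCN_u0 g)
  · exact SimpleGraph.Reachable.refl _

theorem MCN_x2 (g : GI) : wM g 2 = Sum.inl (xg g) := rfl

theorem MCN_c (g : GI) :
    (GL.Gr RM).Reachable (Sum.inr (Sum.inl (cg g))) (Sum.inl (Sum.inl (xg g))) := by
  have h1 : (GL.Gr RM).Reachable (Sum.inl (Sum.inr (Sum.inl g))) (Sum.inr (Sum.inl (cg g))) :=
    MCN_adj (Or.inl ⟨g, rfl, rfl⟩)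
  have h2 : (GL.Gr RM).Reachable (Sum.inl (uM g 2)) (Sum.inl (wM g 2)) := MCN_ux g 2
  exact h1.symm.trans h2

theorem MCN_xij (i j : Fin 3) :
    (GL.Gr RM).Reachable (Sum.inl (Sum.inl (i, j))) (Sum.inl (Sum.inl (0, 0))) := by
  have h1 : (GL.Gr RM).Reachable (Sum.inr (Sum.inl (false, i))) (Sum.inl (Sum.inl (i, j))) :=
    MCN_c (false, i, j, false)
  have h2 : (GL.Gr RM).Reachable (Sum.inr (Sum.inl (false, i))) (Sum.inl (Sum.inl (i, 0))) :=
    MCN_c (false, i, 0, false)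
  have h3 : (GL.Gr RM).Reachable (Sum.inr (Sum.inl (true, 0))) (Sum.inl (Sum.inl (i, 0))) :=
    MCN_c (true, i, 0, false)
  have h4 : (GL.Gr RM).Reachable (Sum.inr (Sum.inl (true, 0))) (Sum.inl (Sum.inl (0, 0))) :=
    MCN_c (true, 0, 0, false)
  exact h1.symm.trans (h2.trans (h3.symm.trans h4))

theorem MCN_g (g : GI) :
    (GL.Gr RM).Reachable (Sum.inl (wM g 2)) (Sum.inl (Sum.inl (0, 0))) :=
  MCN_xij (xg g).1 (xg g).2

theorem MCN : MCN_stmt := by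
  unfold MCN_stmt
  rw [SimpleGraph.connected_iff_exists_forall_reachable]
  refine ⟨Sum.inl (Sum.inl (0, 0)), fun v => SimpleGraph.Reachable.symm ?_⟩
  rcases v with (⟨i, j⟩ | g | ⟨g, k⟩) | (⟨b, i⟩ | ⟨g, p⟩)
  · exact MCN_xij i j
  · exact (MCN_ux g 2).trans (MCN_g g)
  · fin_cases k
    · exact (MCN_ux g 0).trans (MCN_g g)
    · exact (MCN_ux g 1).trans (MCN_g g)
    · exact (MCN_wx g 0).trans (MCN_g g)
    · exact (MCN_wx g 1).trans (MCN_g g)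
  · cases b with
    | false => exact (MCN_c (false, i, 0, false)).trans (MCN_xij i 0)
    | true => exact (MCN_c (true, 0, i, false)).trans (MCN_xij 0 i)
  · exact (MCN_u g p).symm.trans ((MCN_ux g p.1.1).trans (MCN_g g))

end Pool.Agent.XT
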